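import Pool.Agent.W984.PH.Stm

set_option autoImplicit false

open Finset

namespace Pool.Agent.W131.PH

open Pool.Agent.W984.PH

lemma ms_cont {V : Type} [DecidableEq V] (F : Finset (Finset V)) (U : Finset V) :
    Continuous (fun x : V → ℝ => ms x F U) := by
  unfold ms
  exact continuous_finset_sum _ (fun e _ => continuous_finset_prod _ (fun v _ => continuous_apply v))

theorem t_max : S_MAX := by
  intro V _ _ F r y hr hF hy0 hy1
  have hne : (stdSimplex ℝ V).Nonempty := ⟨y, hy0, hy1⟩
  obtain ⟨x, hx, hmax⟩ := (isCompact_stdSimplex ℝ V).exists_isMaxOn hne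
    (ms_cont F univ).continuousOn
  have hmax' : ∀ z : V → ℝ, (∀ v, 0 ≤ z v) → ∑ v, z v = 1 → ms z F univ ≤ ms x F univ := by
    intro z h0 h1
    exact hmax (⟨h0, h1⟩ : z ∈ stdSimplex ℝ V)
  obtain ⟨hx0, hx1⟩ := hx
  refine ⟨x, hx0, hx1, hmax' y hy0 hy1, ?_⟩
  intro v
  have hsum : x v + ∑ w ∈ univ.erase v, x w = 1 := by
    rw [← hx1]
    exact Finset.add_sum_erase _ _ (mem_univ v)
  have hrest : 0 ≤ ∑ w ∈ univ.erase v, x w := Finset.sum_nonneg (fun w _ => hx0 w)
  rcases eq_or_lt_of_le (by linarith : x v ≤ 1) with h1 | h1
  · have hz : ∑ w ∈ univ.erase v, x w = 0 := by linarith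
    have hz' := (Finset.sum_eq_zero_iff_of_nonneg (fun w _ => hx0 w)).1 hz
    have hL : ms x F (univ.erase v) = 0 := by
      unfold ms
      apply Finset.sum_eq_zero
      intro e he
      rw [mem_filter] at he
      have hc : 0 < e.card := by rw [hF e he.1]; omega
      obtain ⟨w, hw⟩ := card_pos.1 hc
      exact Finset.prod_eq_zero hw (hz' w (he.2 hw))
    rw [hL, h1, sub_self, zero_pow (by omega), mul_zero]
  · have hpos : 0 < 1 - x v := by linarith
    set y' : V → ℝ := fun w => if w = v then 0 else x w / (1 - x v) with hy'
    have h0 : ∀ w, 0 ≤ y' w := by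
      intro w
      simp only [hy']
      split_ifs
      · exact le_rfl
      · exact div_nonneg (hx0 w) hpos.le
    have hs : ∑ w, y' w = 1 := by
      rw [← Finset.add_sum_erase _ _ (mem_univ v)]
      have e1 : y' v = 0 := by simp [hy']
      have e2 : ∑ w ∈ univ.erase v, y' w = ∑ w ∈ univ.erase v, x w / (1 - x v) := by
        refine Finset.sum_congr rfl (fun w hw => ?_)
        have : w ≠ v := (Finset.mem_erase.1 hw).1
        simp [hy', this]
      rw [e1, e2, ← Finset.sum_div, zero_add]
      have : ∑ w ∈ univ.erase v, x w = 1 - x v := by linarith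
      rw [this, div_self hpos.ne']
    have hm := hmax' y' h0 hs
    have heq : ms y' F univ = ms x F (univ.erase v) / (1 - x v) ^ r := by
      unfold ms
      rw [Finset.sum_div]
      symm
      have hsub : F.filter (fun e => e ⊆ univ.erase v) ⊆ F.filter (fun e => e ⊆ univ) := by
        intro e he
        rw [mem_filter] at he ⊢
        exact ⟨he.1, subset_univ _⟩
      rw [← Finset.sum_subset hsub]
      · refine Finset.sum_congr rfl (fun e he => ?_)
        rw [mem_filter] at he
        have : ∀ w ∈ e, y' w = x w / (1 - x v) := by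
          intro w hw
          have : w ≠ v := (Finset.mem_erase.1 (he.2 hw)).1
          simp [hy', this]
        rw [Finset.prod_congr rfl this, Finset.prod_div_distrib, Finset.prod_const, hF e he.1]
      · intro e he he'
        rw [mem_filter] at he he'
        have hv : v ∈ e := by
          by_contra hcon
          apply he'
          refine ⟨he.1, fun w hw => ?_⟩
          rw [mem_erase]
          exact ⟨fun h => hcon (h ▸ hw), mem_univ _⟩
        exact Finset.prod_eq_zero hv (by simp [hy'])
    rw [heq, div_le_iff₀ (pow_pos hpos r)] at hm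
    exact hm

theorem t_free : S_FREE := by
  intro r a G hr hLB V _ _ F U x hF hx hE
  rcases eq_or_lt_of_le (Finset.sum_nonneg (fun v (_ : v ∈ U) => hx v)) with hX | hX
  · have hz' := (Finset.sum_eq_zero_iff_of_nonneg (fun w (_ : w ∈ U) => hx w)).1 hX.symm
    have hL : ms x F U = 0 := by
      unfold ms
      apply Finset.sum_eq_zero
      intro e he
      rw [mem_filter] at he
      have hc : 0 < e.card := by rw [hF e he.1]; omega
      obtain ⟨w, hw⟩ := card_pos.1 hc
      exact Finset.prod_eq_zero hw (hz' w (he.2 hw))
    rw [hL, ← hX, zero_pow (by omega), mul_zero, mul_zero]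
  · set X := ∑ v ∈ U, x v with hXd
    set m := U.card with hm
    set h : Fin m → V := fun i => (U.equivFin.symm i : V) with hh
    have hinj : Function.Injective h := by
      intro i j hij
      exact U.equivFin.symm.injective (Subtype.ext hij)
    have hU : ∀ i, h i ∈ U := fun i => (U.equivFin.symm i).2
    have hsurj : ∀ v ∈ U, ∃ i, h i = v := by
      intro v hv
      refine ⟨U.equivFin ⟨v, hv⟩, ?_⟩
      simp [hh]
    set F' : Finset (Finset (Fin m)) := univ.filter (fun e' => e'.image h ∈ F) with hF'
    have hcard : ∀ e' ∈ F', e'.card = r := by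
      intro e' he'
      rw [hF', mem_filter] at he'
      rw [← hF _ he'.2, Finset.card_image_of_injective _ hinj]
    have hfree : ¬ ∃ f : Fin a → Fin m, Function.Injective f ∧ ∀ e ∈ G, e.image f ∈ F' := by
      rintro ⟨f, hf, hfG⟩
      apply hE
      refine ⟨h ∘ f, hinj.comp hf, fun i => hU _, fun e he => ?_⟩
      have := hfG e he
      rw [hF', mem_filter, Finset.image_image] at this
      exact this.2
    have hsumx : ∑ i, x (h i) = X := by
      rw [hXd, ← Finset.sum_coe_sort U]
      exact Equiv.sum_comp U.equivFin.symm (fun v : U => x v)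
    have hLB' := hLB m F' hcard hfree (fun i => x (h i) / X) (fun i => div_nonneg (hx _) hX.le)
      (by rw [← Finset.sum_div, hsumx, div_self hX.ne'])
    have heq : ∑ e ∈ F', ∏ i ∈ e, x (h i) / X = ms x F U / X ^ r := by
      unfold ms
      rw [Finset.sum_div]
      refine Finset.sum_bij (fun e' _ => e'.image h) ?_ ?_ ?_ ?_
      · intro e' he'
        rw [hF', mem_filter] at he'
        rw [mem_filter]
        refine ⟨he'.2, fun v hv => ?_⟩
        obtain ⟨i, _, rfl⟩ := mem_image.1 hv
        exact hU i
      · intro e1 _ e2 _ h12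
        exact Finset.image_injective hinj h12
      · intro e he
        rw [mem_filter] at he
        have him : (univ.filter (fun i => h i ∈ e)).image h = e := by
          ext v
          rw [mem_image]
          constructor
          · rintro ⟨i, hi, rfl⟩
            exact (mem_filter.1 hi).2
          · intro hv
            obtain ⟨i, hi⟩ := hsurj v (he.2 hv)
            exact ⟨i, mem_filter.2 ⟨mem_univ _, by rw [hi]; exact hv⟩, hi⟩
        refine ⟨univ.filter (fun i => h i ∈ e), ?_, him⟩
        rw [hF', mem_filter, him]
        exact ⟨mem_univ _, he.1⟩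
      · intro e' he'
        rw [Finset.prod_div_distrib, Finset.prod_const, hcard e' he',
          Finset.prod_image (fun i _ j _ hij => hinj hij)]
    rw [heq, mul_div_assoc', div_le_iff₀ (pow_pos hX r)] at hLB'
    exact hLB'

end Pool.Agent.W131.PH
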